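import Pool.Agent.Lib.MP_a7a9f5_nt.Final2

set_option autoImplicit false

namespace Pool.Agent.Results.MP_a7a9f5_nt.LeadingCoefficient

/-- If a nonzero integer polynomial of degree at most s vanishes at the sum of d^(-n^s), then
for every M coprime to d such that s! times its leading coefficient divides M times a power
of d, some fraction x/M has a base d expansion with very small digits on average. -/
theorem result :
    ∀ d s : ℕ, 2 ≤ d → 2 ≤ s → ∀ P : Polynomial ℤ, P ≠ 0 → P.natDegree ≤ s →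
      Polynomial.aeval (∑' n : ℕ, ((d : ℝ) ^ (n ^ s))⁻¹) P = 0 →
      ∀ M k : ℕ, 1 ≤ M → M.Coprime d →
        (s.factorial : ℤ) * P.leadingCoeff ∣ (M : ℤ) * (d : ℤ) ^ k →
        ∃ x : ℤ, ¬ (M : ℤ) ∣ x ∧ ∀ J : ℕ, (M : ℤ) ∣ (d : ℤ) ^ J - 1 →
          ∑ j ∈ Finset.range J, Int.fract ((x : ℝ) * (d : ℝ) ^ j / (M : ℝ)) ≤
            (J : ℝ) * (Real.Gamma (1 + 1 / (s : ℝ)) ^ s /
              ((s.factorial : ℝ) * ((d : ℝ) - 1))) := by
  intro d s hd hs P hP hdeg hroot M k hM hcop hdiv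
  have hcop' : IsCoprime (M : ℤ) (d : ℤ) := Nat.isCoprime_iff_coprime.mpr hcop
  have := Pool.Agent.Lib.A7.poly2 hd hs hP hdeg hroot (M := (M : ℤ)) (k := k)
    (by exact_mod_cast hM) hcop' hdiv
  simpa using this

end Pool.Agent.Results.MP_a7a9f5_nt.LeadingCoefficient
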